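import Pool.Agent.P.MP_f981b0_an.Hy.Main

set_option autoImplicit false

namespace Pool.Agent.Results.MP_f981b0_an.Hyponormal

/-- Every hyponormal operator (`‖T* x‖ ≤ ‖T x‖` for all `x`, that is `T* T - T T* ≥ 0`) and every
cohyponormal operator on a complex Hilbert space of dimension at least two has a closed invariant
subspace other than `{0}` and the whole space. -/
theorem result {H : Type*} [NormedAddCommGroup H] [InnerProductSpace ℂ H] [CompleteSpace H]
    (hH : 1 < Module.rank ℂ H) (T : H →L[ℂ] H)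
    (hT : (∀ x : H, ‖ContinuousLinearMap.adjoint T x‖ ≤ ‖T x‖) ∨
      ∀ x : H, ‖T x‖ ≤ ‖ContinuousLinearMap.adjoint T x‖) :
    ∃ V : Submodule ℂ H, IsClosed (V : Set H) ∧ V ≠ ⊥ ∧ V ≠ ⊤ ∧ ∀ x ∈ V, T x ∈ V := by
  by_cases hf : FiniteDimensional ℂ H
  · refine Pool.Agent.P.MP_f981b0_an.Hy.hasInv_findim ?_ T
    rw [← Module.finrank_eq_rank] at hH
    exact_mod_cast hH
  · rcases hT with h | h
    · exact Pool.Agent.P.MP_f981b0_an.Hy.hasInv_hyponormal hf T h
    · refine Pool.Agent.P.MP_f981b0_an.Hy.hasInv_star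
        (Pool.Agent.P.MP_f981b0_an.Hy.hasInv_hyponormal hf (star T) fun x => ?_)
      rw [star_star]
      exact h x

end Pool.Agent.Results.MP_f981b0_an.Hyponormal
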