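import Pool.Agent.P.MP_f981b0_an.PB.Main

set_option autoImplicit false

open Filter Topology

namespace Pool.Agent.Results.MP_f981b0_an.PowerBounded

/-- Let `T` be a power bounded operator on a reflexive complex Banach space `E`, not a scalar
multiple of the identity. If `T ^ n x` does not tend to zero for some vector `x`, or
`(T*) ^ n y = y ∘ T ^ n` does not tend to zero in norm for some functional `y`, then some closed
subspace other than `{0}` and `E` is invariant under every bounded operator commuting with `T`. -/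
theorem result {E : Type*} [NormedAddCommGroup E] [NormedSpace ℂ E] [CompleteSpace E]
    (hE : Function.Surjective (NormedSpace.inclusionInDoubleDual ℂ E))
    (T : E →L[ℂ] E) (hT : ∃ M : ℝ, ∀ n : ℕ, ‖T ^ n‖ ≤ M)
    (hscalar : ∀ c : ℂ, T ≠ c • (1 : E →L[ℂ] E))
    (horbit : (∃ x : E, ¬Tendsto (fun n : ℕ => (T ^ n) x) atTop (𝓝 0)) ∨
      ∃ y : StrongDual ℂ E, ¬Tendsto (fun n : ℕ => y.comp (T ^ n)) atTop (𝓝 0)) :
    ∃ V : Submodule ℂ E, IsClosed (V : Set E) ∧ V ≠ ⊥ ∧ V ≠ ⊤ ∧
      ∀ A : E →L[ℂ] E, A * T = T * A → ∀ x ∈ V, A x ∈ V := by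
  obtain ⟨M, hM⟩ := hT
  rcases horbit with ⟨x, hx⟩ | ⟨y, hy⟩
  · exact Pool.Agent.P.MP_f981b0_an.PB.hyp_of_orbit hE hM hx hscalar
  · exact Pool.Agent.P.MP_f981b0_an.PB.hyp_of_dual_orbit hE hM hy hscalar

end Pool.Agent.Results.MP_f981b0_an.PowerBounded
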