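import Mathlib
import Pool.Agent.P.MP_f981b0_an.TB.Main
import Pool.Agent.P.MP_f981b0_an.TC.JGood

set_option autoImplicit false

noncomputable section

namespace Pool.Agent.Results.MP_f981b0_an.TraceClass

section Defs

/-- The mean, over all `2 ^ |s|` choices of signs, of `‖∑ i ∈ s, ± u i‖ ^ 2`
(`t` is the set of indices that get the sign `+`). -/
def signMean {F : Type} [NormedAddCommGroup F] (u : ℕ → F) (s : Finset ℕ) : ℝ :=
  (∑ t ∈ s.powerset, ‖∑ i ∈ t, u i - ∑ i ∈ s \ t, u i‖ ^ 2) / 2 ^ s.card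

/-- The series `∑ ± u i` with independent random signs converges in mean square
(Cauchy criterion). -/
def RadSummable {F : Type} [NormedAddCommGroup F] (u : ℕ → F) : Prop :=
  ∀ ε : ℝ, 0 < ε → ∃ N : ℕ, ∀ s : Finset ℕ, (∀ i ∈ s, N ≤ i) → signMean u s ≤ ε

variable {E : Type} [NormedAddCommGroup E] [NormedSpace ℂ E]

/-- `S` is a value `Θ a` of a continuous functional calculus: a continuous unital algebra
homomorphism `Θ : C(X, ℂ) → B(E)` with `X` a compact Hausdorff space. -/
def IsScalarType (S : E →L[ℂ] E) : Prop :=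
  ∃ (X : Type) (_ : TopologicalSpace X) (_ : CompactSpace X) (_ : T2Space X)
    (Θ : C(X, ℂ) →ₐ[ℂ] (E →L[ℂ] E)) (a : C(X, ℂ)), Continuous Θ ∧ S = Θ a

/-- `T` has a closed subspace other than `{0}` and the whole space that is invariant under every
bounded operator commuting with `T` (in particular under `T`). -/
def HasHyperinvariant (T : E →L[ℂ] E) : Prop :=
  ∃ M : Submodule ℂ E, IsClosed (M : Set E) ∧ M ≠ ⊥ ∧ M ≠ ⊤ ∧
    ∀ A : E →L[ℂ] E, A * T = T * A → ∀ x ∈ M, A x ∈ M

end Defs

open Pool.Agent.P.MP_f981b0_an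

/-- On a reflexive complex Banach space, every perturbation `T = S + ∑ u n ⊗ v n` of a scalar-type
operator `S`, with `∑ ± u n` and `∑ ± v n` convergent in mean square, is a scalar multiple of the
identity or has a nontrivial closed hyperinvariant subspace. -/
theorem result (E : Type) [NormedAddCommGroup E] [NormedSpace ℂ E] [CompleteSpace E]
    (hE : Function.Surjective (NormedSpace.inclusionInDoubleDual ℂ E))
    (S T : E →L[ℂ] E) (hS : IsScalarType S) (u : ℕ → E) (v : ℕ → StrongDual ℂ E)
    (hu : RadSummable u) (hv : RadSummable v)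
    (hT : ∀ x, HasSum (fun n => v n x • u n) (T x - S x)) :
    (∃ c : ℂ, ∀ x, T x = c • x) ∨ HasHyperinvariant T := by
  obtain ⟨X, _, _, _, Θ, a, hΘ, rfl⟩ := hS
  refine or_iff_not_imp_left.2 fun h => ?_
  refine TB.main_hyper (Θ := Θ) (a := a) (u := u) (v := v) TC.good_of_route
    ⟨hE, hΘ, hu, hv, fun x e => ?_, mul_one 1, by rw [one_mul, mul_one]⟩ fun c hc =>
      h ⟨c, fun x => by rw [hc]; rfl⟩
  simpa using (hT x).mapL e

/-- Every normal operator on a Hilbert space is of scalar type. -/
theorem isScalarType_of_normal {H : Type} [NormedAddCommGroup H] [InnerProductSpace ℂ H]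
    [CompleteSpace H] (N : H →L[ℂ] H) (hN : IsStarNormal N) : IsScalarType N :=
  ⟨spectrum ℂ N, inferInstance, inferInstance, inferInstance, (cfcHom (R := ℂ) hN).toAlgHom,
    (ContinuousMap.id ℂ).restrict (spectrum ℂ N), cfcHom_continuous hN, (cfcHom_id hN).symm⟩

/-- Rescaling the two factors of each rank-one term to equal norms. -/
theorem exists_balanced (p q : ℕ → ℝ) (hp : ∀ n, 0 ≤ p n) (hq : ∀ n, 0 ≤ q n) :
    ∃ c d : ℕ → ℝ, ∀ n, (|c n| * p n) ^ 2 = p n * q n ∧ (|d n| * q n) ^ 2 = p n * q n ∧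
      (c n * d n = 1 ∨ p n = 0 ∨ q n = 0) := by
  refine ⟨fun n => √(q n / p n), fun n => √(p n / q n), fun n => ?_⟩
  have h1 := hp n
  have h2 := hq n
  simp only [mul_pow, sq_abs, Real.sq_sqrt (div_nonneg h2 h1), Real.sq_sqrt (div_nonneg h1 h2)]
  rcases h1.eq_or_lt with h1 | h1
  · simp [← h1]
  rcases h2.eq_or_lt with h2 | h2
  · simp [← h2]
  refine ⟨by field_simp, by field_simp, Or.inl ?_⟩
  rw [← Real.sqrt_mul (by positivity), div_mul_div_cancel₀ h1.ne', div_self h2.ne', Real.sqrt_one]

/-- Special case: trace class perturbations of normal operators on a Hilbert space. -/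
theorem normal_add_traceClass {H : Type} [NormedAddCommGroup H] [InnerProductSpace ℂ H]
    [CompleteSpace H] (N T : H →L[ℂ] H) (hN : IsStarNormal N) (u v : ℕ → H)
    (huv : Summable fun n => ‖u n‖ * ‖v n‖)
    (hT : ∀ x, HasSum (fun n => inner ℂ (v n) x • u n) (T x - N x)) :
    (∃ c : ℂ, ∀ x, T x = c • x) ∨ HasHyperinvariant T := by
  obtain ⟨c, d, h⟩ := exists_balanced (fun n => ‖u n‖) (fun n => ‖v n‖) (fun _ => norm_nonneg _)
    fun _ => norm_nonneg _
  refine result H R1.refl_hilbert N T (isScalarType_of_normal N hN) (fun n => (c n : ℂ) • u n)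
    (fun n => innerSL ℂ ((d n : ℂ) • v n)) (TB.radSum_of_hilbert ?_) (TB.radSum_innerSL ?_)
    fun x => ?_
  · simpa only [norm_smul, Complex.norm_real, Real.norm_eq_abs, (h _).1] using huv
  · simpa only [norm_smul, Complex.norm_real, Real.norm_eq_abs, (h _).2.1] using huv
  · convert hT x using 2 with n
    rw [innerSL_apply_apply, inner_smul_left, Complex.conj_ofReal, smul_smul]
    rcases (h n).2.2 with h1 | h1 | h1
    · rw [mul_right_comm, ← Complex.ofReal_mul, mul_comm (d n), h1]
      simp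
    · simp [norm_eq_zero.1 h1]
    · simp [norm_eq_zero.1 h1]

/-- Special case: finite rank (more generally `1/2`-nuclear) perturbations of scalar-type
operators on a reflexive space. -/
theorem scalar_add_halfNuclear (E : Type) [NormedAddCommGroup E] [NormedSpace ℂ E]
    [CompleteSpace E] (hE : Function.Surjective (NormedSpace.inclusionInDoubleDual ℂ E))
    (S T : E →L[ℂ] E) (hS : IsScalarType S) (u : ℕ → E) (v : ℕ → StrongDual ℂ E)
    (hu : Summable fun n => ‖u n‖) (hv : Summable fun n => ‖v n‖)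
    (hT : ∀ x, HasSum (fun n => v n x • u n) (T x - S x)) :
    (∃ c : ℂ, ∀ x, T x = c • x) ∨ HasHyperinvariant T :=
  result E hE S T hS u v (TB.radSum_of_summable_norm hu) (TB.radSum_of_summable_norm hv) hT

end Pool.Agent.Results.MP_f981b0_an.TraceClass
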